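import Pool.Agent.H8.Aff1

namespace Pool.Agent.Results.MP_94ebd3_co.Phi3

theorem result : ∀ (r : ℕ) (c : ℕ → Fin r), ∃ (i : Fin r) (H : Set ℕ), H.Infinite ∧
    (∀ h ∈ H, 0 < h ∧ c h = i) ∧
    ∀ h₁ ∈ H, ∀ h₂ ∈ H, h₁ < h₂ →
      ∃ z t : ℕ, 0 < z ∧ 0 < t ∧ c z = i ∧ c t = i ∧ h₁ + h₂ = z ∧ h₂ = t * h₁ := by
  intro r c
  obtain ⟨a, ha, h0, i, h1, h2⟩ := H8.Aff.main r c
  have pos : ∀ n, 0 < a n := fun n => lt_of_lt_of_le h0 (ha.monotone (Nat.zero_le n))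
  refine ⟨i, Set.range a, Set.infinite_range_of_injective ha.injective, ?_, ?_⟩
  · rintro _ ⟨n, rfl⟩
    exact ⟨pos n, h1 n⟩
  · rintro _ ⟨n, rfl⟩ _ ⟨m, rfl⟩ h
    obtain ⟨b, t, c1, c2⟩ := h2 n m (ha.lt_iff_lt.1 h)
    refine ⟨_, t, by omega, ?_, b, c1, rfl, c2⟩
    rcases Nat.eq_zero_or_pos t with rfl | ht
    · have := pos m; omega
    · exact ht

end Pool.Agent.Results.MP_94ebd3_co.Phi3
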